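import Pool.Agent.Helper498.Hof.Check

/-! Kernel check of the certificate, blocks 15 to 29. -/

namespace Pool.Helper498.Hof

theorem blk15 : blk 15 = true := by decide +kernel

theorem blk16 : blk 16 = true := by decide +kernel

theorem blk17 : blk 17 = true := by decide +kernel

theorem blk18 : blk 18 = true := by decide +kernel

theorem blk19 : blk 19 = true := by decide +kernel

theorem blk20 : blk 20 = true := by decide +kernel

theorem blk21 : blk 21 = true := by decide +kernel

theorem blk22 : blk 22 = true := by decide +kernel

theorem blk23 : blk 23 = true := by decide +kernel

theorem blk24 : blk 24 = true := by decide +kernel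

theorem blk25 : blk 25 = true := by decide +kernel

theorem blk26 : blk 26 = true := by decide +kernel

theorem blk27 : blk 27 = true := by decide +kernel

theorem blk28 : blk 28 = true := by decide +kernel

theorem blk29 : blk 29 = true := by decide +kernel

end Pool.Helper498.Hof
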