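import Pool.Agent.Helper498.Hof.Check

/-! Kernel check of the certificate, blocks 30 to 44. -/

namespace Pool.Helper498.Hof

theorem blk30 : blk 30 = true := by decide +kernel

theorem blk31 : blk 31 = true := by decide +kernel

theorem blk32 : blk 32 = true := by decide +kernel

theorem blk33 : blk 33 = true := by decide +kernel

theorem blk34 : blk 34 = true := by decide +kernel

theorem blk35 : blk 35 = true := by decide +kernel

theorem blk36 : blk 36 = true := by decide +kernel

theorem blk37 : blk 37 = true := by decide +kernel

theorem blk38 : blk 38 = true := by decide +kernel

theorem blk39 : blk 39 = true := by decide +kernel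

theorem blk40 : blk 40 = true := by decide +kernel

theorem blk41 : blk 41 = true := by decide +kernel

theorem blk42 : blk 42 = true := by decide +kernel

theorem blk43 : blk 43 = true := by decide +kernel

theorem blk44 : blk 44 = true := by decide +kernel

end Pool.Helper498.Hof
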