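import Pool.Agent.Helper498.Hof.Check

/-! Kernel check of the certificate, blocks 45 to 59. -/

namespace Pool.Helper498.Hof

theorem blk45 : blk 45 = true := by decide +kernel

theorem blk46 : blk 46 = true := by decide +kernel

theorem blk47 : blk 47 = true := by decide +kernel

theorem blk48 : blk 48 = true := by decide +kernel

theorem blk49 : blk 49 = true := by decide +kernel

theorem blk50 : blk 50 = true := by decide +kernel

theorem blk51 : blk 51 = true := by decide +kernel

theorem blk52 : blk 52 = true := by decide +kernel

theorem blk53 : blk 53 = true := by decide +kernel

theorem blk54 : blk 54 = true := by decide +kernel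

theorem blk55 : blk 55 = true := by decide +kernel

theorem blk56 : blk 56 = true := by decide +kernel

theorem blk57 : blk 57 = true := by decide +kernel

theorem blk58 : blk 58 = true := by decide +kernel

theorem blk59 : blk 59 = true := by decide +kernel

end Pool.Helper498.Hof
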