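import Pool.Agent.Helper498.Hof.Check

/-! Kernel check of the certificate, blocks 60 to 74. -/

namespace Pool.Helper498.Hof

theorem blk60 : blk 60 = true := by decide +kernel

theorem blk61 : blk 61 = true := by decide +kernel

theorem blk62 : blk 62 = true := by decide +kernel

theorem blk63 : blk 63 = true := by decide +kernel

theorem blk64 : blk 64 = true := by decide +kernel

theorem blk65 : blk 65 = true := by decide +kernel

theorem blk66 : blk 66 = true := by decide +kernel

theorem blk67 : blk 67 = true := by decide +kernel

theorem blk68 : blk 68 = true := by decide +kernel

theorem blk69 : blk 69 = true := by decide +kernel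

theorem blk70 : blk 70 = true := by decide +kernel

theorem blk71 : blk 71 = true := by decide +kernel

theorem blk72 : blk 72 = true := by decide +kernel

theorem blk73 : blk 73 = true := by decide +kernel

theorem blk74 : blk 74 = true := by decide +kernel

end Pool.Helper498.Hof
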