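import Pool.Agent.Helper498.Hof.Check

/-! Kernel check of the certificate, blocks 75 to 89. -/

namespace Pool.Helper498.Hof

theorem blk75 : blk 75 = true := by decide +kernel

theorem blk76 : blk 76 = true := by decide +kernel

theorem blk77 : blk 77 = true := by decide +kernel

theorem blk78 : blk 78 = true := by decide +kernel

theorem blk79 : blk 79 = true := by decide +kernel

theorem blk80 : blk 80 = true := by decide +kernel

theorem blk81 : blk 81 = true := by decide +kernel

theorem blk82 : blk 82 = true := by decide +kernel

theorem blk83 : blk 83 = true := by decide +kernel

theorem blk84 : blk 84 = true := by decide +kernel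

theorem blk85 : blk 85 = true := by decide +kernel

theorem blk86 : blk 86 = true := by decide +kernel

theorem blk87 : blk 87 = true := by decide +kernel

theorem blk88 : blk 88 = true := by decide +kernel

theorem blk89 : blk 89 = true := by decide +kernel

end Pool.Helper498.Hof
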