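import Pool.Agent.Helper498.Hof.Part0
import Pool.Agent.Helper498.Hof.Part1
import Pool.Agent.Helper498.Hof.Part2
import Pool.Agent.Helper498.Hof.Part3
import Pool.Agent.Helper498.Hof.Part4
import Pool.Agent.Helper498.Hof.Part5

/-! All blocks of the certificate check. -/

namespace Pool.Helper498.Hof

theorem blk_all {b : ℕ} (hb : b < 90) : blk b = true := by
  interval_cases b
  · exact blk0
  · exact blk1
  · exact blk2
  · exact blk3
  · exact blk4
  · exact blk5
  · exact blk6
  · exact blk7
  · exact blk8
  · exact blk9
  · exact blk10
  · exact blk11
  · exact blk12
  · exact blk13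
  · exact blk14
  · exact blk15
  · exact blk16
  · exact blk17
  · exact blk18
  · exact blk19
  · exact blk20
  · exact blk21
  · exact blk22
  · exact blk23
  · exact blk24
  · exact blk25
  · exact blk26
  · exact blk27
  · exact blk28
  · exact blk29
  · exact blk30
  · exact blk31
  · exact blk32
  · exact blk33
  · exact blk34
  · exact blk35
  · exact blk36
  · exact blk37
  · exact blk38
  · exact blk39
  · exact blk40
  · exact blk41
  · exact blk42
  · exact blk43
  · exact blk44
  · exact blk45
  · exact blk46
  · exact blk47
  · exact blk48
  · exact blk49
  · exact blk50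
  · exact blk51
  · exact blk52
  · exact blk53
  · exact blk54
  · exact blk55
  · exact blk56
  · exact blk57
  · exact blk58
  · exact blk59
  · exact blk60
  · exact blk61
  · exact blk62
  · exact blk63
  · exact blk64
  · exact blk65
  · exact blk66
  · exact blk67
  · exact blk68
  · exact blk69
  · exact blk70
  · exact blk71
  · exact blk72
  · exact blk73
  · exact blk74
  · exact blk75
  · exact blk76
  · exact blk77
  · exact blk78
  · exact blk79
  · exact blk80
  · exact blk81
  · exact blk82
  · exact blk83
  · exact blk84
  · exact blk85
  · exact blk86
  · exact blk87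
  · exact blk88
  · exact blk89

theorem check_all (r : ℕ) (hr : r < 64800) : check r = true :=
  blk_spec (blk_all (by omega : r / 720 < 90)) rfl

end Pool.Helper498.Hof
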