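import Mathlib

/-! Hofstadter's set generated by `a * b - 1` from `2, 3`: a general residue-class
certificate theorem giving lower bounds `c * N ^ s` for its counting function. -/

namespace Pool.Helper498.Hof

/-- Hofstadter's set as a predicate on the natural numbers. -/
inductive H : ℕ → Prop
  | two : H 2
  | three : H 3
  | mul {a b : ℕ} : H a → H b → H (a * b - 1)

theorem H.two_le {n : ℕ} (h : H n) : 2 ≤ n := by
  induction h with
  | two => exact le_refl 2
  | three => norm_num
  | mul _ _ iha ihb =>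
    rename_i a b _ _
    have : 2 * 2 ≤ a * b := Nat.mul_le_mul iha ihb
    omega

open Classical in
/-- The members of the set up to `N` in the class `r` modulo `W`. -/
noncomputable def S (W r N : ℕ) : Finset ℕ :=
  (Finset.range (N + 1)).filter (fun n => H n ∧ n % W = r)

theorem mem_S {W r N n : ℕ} : n ∈ S W r N ↔ n ≤ N ∧ H n ∧ n % W = r := by
  unfold S
  simp [Finset.mem_filter]

theorem S_mono {W r M N : ℕ} (h : M ≤ N) : (S W r M).card ≤ (S W r N).card := by
  apply Finset.card_le_card
  intro n hn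
  rw [mem_S] at hn ⊢
  exact ⟨hn.1.trans h, hn.2⟩

theorem step {W r N a : ℕ} (hr : r < W) (ha : H a) (haW : a ∣ W) (hra : (r + 1) % a = 0) :
    ∑ j ∈ Finset.range a, (S W (((r + 1) / a) % (W / a) + j * (W / a)) ((N + 1) / a)).card
      ≤ (S W r N).card := by
  have ha2 : 2 ≤ a := ha.two_le
  have hapos : 0 < a := by omega
  obtain ⟨m, hm⟩ := haW
  have hWm : W / a = m := by rw [hm]; exact Nat.mul_div_cancel_left m hapos
  rw [hWm]
  obtain ⟨q, hq⟩ : a ∣ r + 1 := Nat.dvd_of_mod_eq_zero hra
  have hrq : (r + 1) / a = q := by rw [hq]; exact Nat.mul_div_cancel_left q hapos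
  rw [hrq]
  have hmpos : 0 < m := by
    rcases Nat.eq_zero_or_pos m with h | h
    · subst h; omega
    · exact h
  have hcard : ∑ j ∈ Finset.range a, (S W (q % m + j * m) ((N + 1) / a)).card
      = ((Finset.range a).biUnion (fun j => S W (q % m + j * m) ((N + 1) / a))).card := by
    rw [Finset.card_biUnion]
    intro i _ j _ hij
    rw [Function.onFun, Finset.disjoint_left]
    intro x hx hy
    rw [mem_S] at hx hy
    apply hij
    have h1 : q % m + i * m = q % m + j * m := by rw [← hx.2.2, ← hy.2.2]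
    have h2 : i * m = j * m := by omega
    exact Nat.eq_of_mul_eq_mul_right hmpos h2
  rw [hcard]
  apply Finset.card_le_card_of_injOn (fun x => a * x - 1)
  · intro x hx
    simp only [Finset.coe_biUnion, Set.mem_iUnion, Finset.mem_coe, Finset.mem_range] at hx
    obtain ⟨j, hj, hx⟩ := hx
    rw [mem_S] at hx
    obtain ⟨hxN, hxH, hxmod⟩ := hx
    rw [Finset.mem_coe, mem_S]
    have hx2 : 2 ≤ x := hxH.two_le
    have h1 : a * x ≤ N + 1 := by
      calc a * x ≤ a * ((N + 1) / a) := Nat.mul_le_mul_left a hxN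
        _ ≤ N + 1 := Nat.mul_div_le (N + 1) a
    show a * x - 1 ≤ N ∧ H (a * x - 1) ∧ (a * x - 1) % W = r
    refine ⟨by omega, H.mul ha hxH, ?_⟩
    -- residue
    have hxm : x % m = q % m := by
      have : x % W % m = x % m := Nat.mod_mod_of_dvd x ⟨a, by rw [hm]; ring⟩
      rw [← this, hxmod]
      simp
    have h2 : (a * x) ≡ (a * q) [MOD W] := by
      rw [hm]
      exact Nat.ModEq.mul_left' a hxm
    have h3 : (a * x - 1) + 1 ≡ r + 1 [MOD W] := by
      have : a * x - 1 + 1 = a * x := by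
        have : 2 * 2 ≤ a * x := Nat.mul_le_mul ha2 hx2
        omega
      rw [this, hq]
      exact h2
    have h4 : a * x - 1 ≡ r [MOD W] := Nat.ModEq.add_right_cancel' 1 h3
    have h5 : (a * x - 1) % W = r % W := h4
    rw [h5, Nat.mod_eq_of_lt hr]
  · intro x hx y hy hxy
    simp only [Finset.coe_biUnion, Set.mem_iUnion, Finset.mem_coe, Finset.mem_range] at hx hy
    obtain ⟨j, _, hx⟩ := hx
    obtain ⟨j', _, hy⟩ := hy
    rw [mem_S] at hx hy
    have hx2 : 2 ≤ x := hx.2.1.two_le
    have hy2 : 2 ≤ y := hy.2.1.two_le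
    have h1 : 2 * 2 ≤ a * x := Nat.mul_le_mul ha2 hx2
    have h2 : 2 * 2 ≤ a * y := Nat.mul_le_mul ha2 hy2
    have h3 : a * x = a * y := by
      have : a * x - 1 = a * y - 1 := hxy
      omega
    exact Nat.eq_of_mul_eq_mul_left hapos h3

/-- The certificate theorem. -/
theorem main (W D A0 : ℕ) (v : ℕ → ℕ) (s : ℝ) (hs : 0 < s) (hD : 0 < D) (hA0 : 2 ≤ A0)
    (hstep : ∀ r < W, v r ≠ 0 → ∃ a K : ℕ, H a ∧ a ≤ A0 ∧ a ∣ W ∧ (r + 1) % a = 0 ∧
      (a : ℝ) ^ s ≤ (K : ℝ) / D ∧
      v r * K ≤ D * ∑ j ∈ Finset.range a, v (((r + 1) / a) % (W / a) + j * (W / a)))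
    (hroot : ∀ r < W, v r ≠ 0 → ∃ h, H h ∧ h % W = r) :
    ∃ c : ℝ, 0 < c ∧ ∃ N0 : ℕ, ∀ N ≥ N0, ∀ r < W, v r ≠ 0 →
      c * v r * ((N : ℝ) + 1) ^ s ≤ ((S W r N).card : ℝ) := by
  classical
  -- the base scale
  have hchoose : ∃ f : ℕ → ℕ, ∀ r < W, v r ≠ 0 → H (f r) ∧ f r % W = r := by
    refine ⟨fun r => if h : r < W ∧ v r ≠ 0 then Classical.choose (hroot r h.1 h.2) else 0, ?_⟩
    intro r hr hv
    have h : r < W ∧ v r ≠ 0 := ⟨hr, hv⟩
    simp only [h, and_self, dif_pos, ne_eq, not_false_eq_true]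
    exact Classical.choose_spec (hroot r hr hv)
  obtain ⟨f, hf⟩ := hchoose
  set N0 : ℕ := ∑ r ∈ Finset.range W, f r + 1 with hN0
  have hfN0 : ∀ r < W, f r ≤ N0 := by
    intro r hr
    have : f r ≤ ∑ r ∈ Finset.range W, f r :=
      Finset.single_le_sum (f := f) (fun _ _ => Nat.zero_le _) (Finset.mem_range.2 hr)
    omega
  set V : ℕ := ∑ r ∈ Finset.range W, v r + 1 with hV
  have hvV : ∀ r < W, v r ≤ V := by
    intro r hr
    have : v r ≤ ∑ r ∈ Finset.range W, v r :=
      Finset.single_le_sum (f := v) (fun _ _ => Nat.zero_le _) (Finset.mem_range.2 hr)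
    omega
  set N1 : ℕ := A0 * (N0 + 1) with hN1
  have hVpos : (0 : ℝ) < V := by
    have : 0 < V := by omega
    exact_mod_cast this
  have hN1pos : (0 : ℝ) < ((N1 : ℝ) + 1) ^ s := by positivity
  have hbase : ∀ N ≥ N0, ∀ r < W, v r ≠ 0 → 1 ≤ (S W r N).card := by
    intro N hN r hr hv
    apply Finset.card_pos.2
    refine ⟨f r, ?_⟩
    rw [mem_S]
    exact ⟨(hfN0 r hr).trans hN, (hf r hr hv).1, (hf r hr hv).2⟩
  refine ⟨1 / (V * ((N1 : ℝ) + 1) ^ s), by positivity, N0, ?_⟩
  set c : ℝ := 1 / (V * ((N1 : ℝ) + 1) ^ s) with hc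
  have hcpos : 0 < c := by positivity
  intro N
  induction N using Nat.strong_induction_on with
  | _ N ih =>
    intro hN r hr hv
    by_cases hlt : N < N1
    · have h1 : (1 : ℝ) ≤ ((S W r N).card : ℝ) := by exact_mod_cast hbase N hN r hr hv
      have h2 : c * v r * ((N : ℝ) + 1) ^ s ≤ 1 := by
        have h3 : ((N : ℝ) + 1) ^ s ≤ ((N1 : ℝ) + 1) ^ s := by
          apply Real.rpow_le_rpow (by positivity) _ hs.le
          have : (N : ℝ) ≤ N1 := by exact_mod_cast hlt.le
          linarith
        have h4 : (v r : ℝ) ≤ V := by exact_mod_cast hvV r hr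
        calc c * v r * ((N : ℝ) + 1) ^ s ≤ c * V * ((N1 : ℝ) + 1) ^ s := by gcongr
          _ = 1 := by rw [hc]; field_simp
      exact h2.trans h1
    · push Not at hlt
      obtain ⟨a, K, haH, haA0, haW, hra, haK, hsum⟩ := hstep r hr hv
      have ha2 : 2 ≤ a := haH.two_le
      have hapos : 0 < a := by omega
      set M : ℕ := (N + 1) / a with hM
      have hMN0 : N0 ≤ M := by
        rw [hM, Nat.le_div_iff_mul_le hapos]
        calc N0 * a ≤ N0 * A0 := Nat.mul_le_mul_left _ haA0
          _ ≤ A0 * (N0 + 1) := by nlinarith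
          _ ≤ N + 1 := by omega
      have hN2 : 2 ≤ N := by
        have : 2 * 1 ≤ A0 * (N0 + 1) := Nat.mul_le_mul hA0 (by omega)
        omega
      have hMN : M < N := by
        rw [hM, Nat.div_lt_iff_lt_mul hapos]
        nlinarith
      have hstep' := step (N := N) hr haH haW hra
      have hreal : ((∑ j ∈ Finset.range a,
          (S W (((r + 1) / a) % (W / a) + j * (W / a)) M).card : ℕ) : ℝ) ≤ ((S W r N).card : ℝ) := by
        exact_mod_cast hstep'
      refine le_trans ?_ hreal
      push_cast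
      have hMa : (N : ℝ) + 1 ≤ a * ((M : ℝ) + 1) := by
        have h1 : N + 1 < a * (M + 1) := by
          rw [hM]
          exact Nat.lt_mul_div_succ (N + 1) hapos
        have h2 : ((N + 1 : ℕ) : ℝ) ≤ ((a * (M + 1) : ℕ) : ℝ) := by exact_mod_cast h1.le
        push_cast at h2
        exact h2
      have hpow : ((N : ℝ) + 1) ^ s ≤ (K : ℝ) / D * ((M : ℝ) + 1) ^ s := by
        calc ((N : ℝ) + 1) ^ s ≤ (a * ((M : ℝ) + 1)) ^ s :=
              Real.rpow_le_rpow (by positivity) hMa hs.le
          _ = (a : ℝ) ^ s * ((M : ℝ) + 1) ^ s := by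
              rw [Real.mul_rpow (by positivity) (by positivity)]
          _ ≤ _ := by gcongr
      have hDpos : (0 : ℝ) < D := by exact_mod_cast hD
      have hsumR : (v r : ℝ) * K ≤ D * ∑ j ∈ Finset.range a,
          (v (((r + 1) / a) % (W / a) + j * (W / a)) : ℝ) := by
        exact_mod_cast hsum
      have hkey : (v r : ℝ) * ((K : ℝ) / D) ≤ ∑ j ∈ Finset.range a,
          (v (((r + 1) / a) % (W / a) + j * (W / a)) : ℝ) := by
        rw [← mul_div_assoc, div_le_iff₀ hDpos]
        linarith
      have hMpos : (0 : ℝ) < ((M : ℝ) + 1) ^ s := by positivity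
      have hWa : W / a * a = W := Nat.div_mul_cancel haW
      have hidx : ∀ j ∈ Finset.range a, ((r + 1) / a) % (W / a) + j * (W / a) < W := by
        intro j hj
        rw [Finset.mem_range] at hj
        have hm : 0 < W / a := by
          rcases Nat.eq_zero_or_pos (W / a) with h | h
          · rw [h] at hWa; omega
          · exact h
        have h1 : ((r + 1) / a) % (W / a) < W / a := Nat.mod_lt _ hm
        have h2 : (j + 1) * (W / a) ≤ a * (W / a) := Nat.mul_le_mul_right _ hj
        nlinarith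
      calc c * v r * ((N : ℝ) + 1) ^ s
          ≤ c * v r * ((K : ℝ) / D * ((M : ℝ) + 1) ^ s) := by gcongr
        _ = c * ((v r : ℝ) * ((K : ℝ) / D)) * ((M : ℝ) + 1) ^ s := by ring
        _ ≤ c * (∑ j ∈ Finset.range a,
              (v (((r + 1) / a) % (W / a) + j * (W / a)) : ℝ)) * ((M : ℝ) + 1) ^ s := by gcongr
        _ = ∑ j ∈ Finset.range a,
              c * (v (((r + 1) / a) % (W / a) + j * (W / a)) : ℝ) * ((M : ℝ) + 1) ^ s := by
            rw [Finset.mul_sum, Finset.sum_mul]
        _ ≤ ∑ j ∈ Finset.range a,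
              ((S W (((r + 1) / a) % (W / a) + j * (W / a)) M).card : ℝ) := by
            apply Finset.sum_le_sum
            intro j hj
            by_cases hz : v (((r + 1) / a) % (W / a) + j * (W / a)) = 0
            · rw [hz]; simp
            · exact ih M hMN hMN0 _ (hidx j hj) hz

/-- Rank certificate for the existence of an element in every class of the support. -/
theorem root_of_rank (W : ℕ) (v rk : ℕ → ℕ) (r0 : ℕ) (hr0 : H r0) (hr0W : r0 < W)
    (h : ∀ r < W, v r ≠ 0 → (rk r = 0 ∧ r = r0) ∨ ∃ a j : ℕ, H a ∧ a ∣ W ∧ (r + 1) % a = 0 ∧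
      j < a ∧ v (((r + 1) / a) % (W / a) + j * (W / a)) ≠ 0 ∧
      rk (((r + 1) / a) % (W / a) + j * (W / a)) < rk r) :
    ∀ r < W, v r ≠ 0 → ∃ h, H h ∧ h % W = r := by
  have key : ∀ k : ℕ, ∀ r < W, v r ≠ 0 → rk r = k → ∃ h, H h ∧ h % W = r := by
    intro k
    induction k using Nat.strong_induction_on with
    | _ k ih =>
      intro r hr hv hk
      rcases h r hr hv with ⟨_, hrr⟩ | ⟨a, j, haH, haW, hra, hj, hv', hrk⟩
      · subst hrr
        exact ⟨r, hr0, Nat.mod_eq_of_lt hr⟩
      · have ha2 : 2 ≤ a := haH.two_le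
        have hapos : 0 < a := by omega
        have hWa : W / a * a = W := Nat.div_mul_cancel haW
        have hm : 0 < W / a := by
          rcases Nat.eq_zero_or_pos (W / a) with h | h
          · rw [h] at hWa; omega
          · exact h
        have hlt : ((r + 1) / a) % (W / a) + j * (W / a) < W := by
          have h1 : ((r + 1) / a) % (W / a) < W / a := Nat.mod_lt _ hm
          have h2 : (j + 1) * (W / a) ≤ a * (W / a) := Nat.mul_le_mul_right _ hj
          nlinarith
        obtain ⟨x, hxH, hx⟩ := ih _ (hk ▸ hrk) _ hlt hv' rfl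
        -- the step lemma gives an element of class r
        have hst := step (W := W) (r := r) (N := a * x) hr haH haW hra
        have hpos : 0 < (S W (((r + 1) / a) % (W / a) + j * (W / a)) ((a * x + 1) / a)).card := by
          apply Finset.card_pos.2
          refine ⟨x, ?_⟩
          rw [mem_S]
          refine ⟨?_, hxH, hx⟩
          rw [Nat.le_div_iff_mul_le hapos]
          nlinarith
        have hle : (S W (((r + 1) / a) % (W / a) + j * (W / a)) ((a * x + 1) / a)).card ≤
            ∑ j ∈ Finset.range a,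
              (S W (((r + 1) / a) % (W / a) + j * (W / a)) ((a * x + 1) / a)).card :=
          Finset.single_le_sum
            (f := fun j => (S W (((r + 1) / a) % (W / a) + j * (W / a)) ((a * x + 1) / a)).card)
            (fun _ _ => Nat.zero_le _) (Finset.mem_range.2 hj)
        have hfin : 0 < (S W r (a * x)).card := lt_of_lt_of_le hpos (hle.trans hst)
        obtain ⟨y, hy⟩ := Finset.card_pos.1 hfin
        rw [mem_S] at hy
        exact ⟨y, hy.2.1, hy.2.2⟩
  intro r hr hv
  exact key (rk r) r hr hv rfl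

end Pool.Helper498.Hof
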