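import Pool.Agent.Helper498.Hof.Data

/-! The kernel check of the certificate. -/

namespace Pool.Helper498.Hof

/-- Table lookup. -/
noncomputable def getE (t : T) (i : ℕ) : ℕ :=
  T.rec (motive := fun _ => ℕ → ℕ) (fun n i => (n >>> (24 * (i % 64))) % 16777216)
    (fun d _ _ ihl ihr i => cond (Nat.beq ((i >>> d) % 2) 1) (ihr i) (ihl i)) t i

/-- The weights. -/
noncomputable def v (i : ℕ) : ℕ := getE tab i % 65536

/-- The ranks. -/
noncomputable def rk (i : ℕ) : ℕ := getE tab i >>> 20

/-- The letters. -/
def LA (i : ℕ) : ℕ := [2, 3, 5, 8, 9, 15, 24, 27, 45, 50, 80, 81, 135, 144].getD i 0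

/-- Upper bounds of `2^30 * a ^ 0.999`. -/
def LK (i : ℕ) : ℕ := [2145995643, 3217688539, 5360075467, 8572090886, 9642466460, 16062570164,
  25688035954, 28895636832, 48134799948, 53477476342, 85523756223, 86591727481, 144245842506,
  153852302286].getD i 0

/-- Evaluate a number before passing it on. -/
def force (x : ℕ) (f : ℕ → Bool) : Bool :=
  Nat.rec (motive := fun _ => Bool) (f 0) (fun k _ => f (k + 1)) x

theorem force_eq (x : ℕ) (f : ℕ → Bool) : force x f = f x := by
  cases x <;> rfl

/-- Sum of the weights over the lifts. -/
noncomputable def sumv (a c m : ℕ) : ℕ :=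
  Nat.rec (motive := fun _ => ℕ) 0 (fun j ih => ih + v (c + j * m)) a

theorem sumv_eq (a c m : ℕ) : sumv a c m = ∑ j ∈ Finset.range a, v (c + j * m) := by
  induction a with
  | zero => rfl
  | succ n ih => rw [Finset.sum_range_succ, ← ih]; rfl

/-- Search for a lift of smaller rank. -/
noncomputable def search (c m k : ℕ) (a : ℕ) : Bool :=
  Nat.rec (motive := fun _ => Bool) false
    (fun j ih => cond (force (getE tab (c + j * m)) (fun e =>
      cond (Nat.beq (e % 65536) 0) false (Nat.ble (e >>> 20 + 1) k))) true ih) a

theorem search_spec {c m k a : ℕ} (h : search c m k a = true) :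
    ∃ j < a, v (c + j * m) ≠ 0 ∧ rk (c + j * m) < k := by
  induction a with
  | zero => exact absurd h (by simp [search])
  | succ n ih =>
    have h' : cond (force (getE tab (c + n * m)) (fun e =>
      cond (Nat.beq (e % 65536) 0) false (Nat.ble (e >>> 20 + 1) k))) true
        (search c m k n) = true := h
    rw [force_eq] at h'
    by_cases h0 : Nat.beq (getE tab (c + n * m) % 65536) 0 = true
    · rw [h0] at h'
      simp only [cond_true, cond_false] at h'
      obtain ⟨j, hj, hh⟩ := ih h'
      exact ⟨j, by omega, hh⟩
    · rw [Bool.not_eq_true] at h0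
      rw [h0] at h'
      simp only [cond_false] at h'
      by_cases h1 : Nat.ble (getE tab (c + n * m) >>> 20 + 1) k = true
      · refine ⟨n, Nat.lt_succ_self n, ?_, ?_⟩
        · intro hv
          have : Nat.beq (getE tab (c + n * m) % 65536) 0 = true := by
            rw [Nat.beq_eq]; exact hv
          rw [this] at h0
          exact Bool.noConfusion h0
        · exact Nat.le_of_ble_eq_true h1
      · rw [Bool.not_eq_true] at h1
        rw [h1] at h'
        simp only [cond_false] at h'
        obtain ⟨j, hj, hh⟩ := ih h'
        exact ⟨j, by omega, hh⟩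

/-- The check of one class. -/
noncomputable def check (r : ℕ) : Bool :=
  force (getE tab r) (fun e => cond (Nat.beq (e % 65536) 0) true
    (force ((e >>> 16) % 16) (fun l => force (LA l) (fun a => force (64800 / a) (fun m =>
      force (((r + 1) / a) % m) (fun c =>
        and (Nat.beq ((r + 1) % a) 0)
          (and (Nat.ble ((e % 65536) * LK l) (1073741824 * sumv a c m))
            (cond (Nat.beq (e >>> 20) 0) (Nat.beq r 17) (search c m (e >>> 20) a)))))))))

/-- A loop. -/
def loop (f : ℕ → Bool) (n : ℕ) : Bool :=
  Nat.rec (motive := fun _ => Bool) true (fun k ih => cond (f k) ih false) n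

theorem loop_spec {f : ℕ → Bool} {n : ℕ} (h : loop f n = true) : ∀ k < n, f k = true := by
  induction n with
  | zero => intro k hk; omega
  | succ n ih =>
    have h' : cond (f n) (loop f n) false = true := h
    cases hf : f n with
    | false => rw [hf] at h'; exact absurd h' (by simp)
    | true =>
      rw [hf] at h'
      intro k hk
      rcases Nat.lt_succ_iff_lt_or_eq.1 hk with h1 | h1
      · exact ih h' k h1
      · rw [h1]; exact hf

/-- The check of the block `b` of 720 classes. -/
noncomputable def blk (b : ℕ) : Bool :=
  loop (fun i => loop (fun j => check (240 * (3 * b + i) + j)) 240) 3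

theorem blk_spec {b r : ℕ} (h : blk b = true) (hr : r / 720 = b) : check r = true := by
  have hi : r / 240 - 3 * b < 3 := by omega
  have hj : r % 240 < 240 := by omega
  have h1 := loop_spec (loop_spec h (r / 240 - 3 * b) hi) (r % 240) hj
  have e : 240 * (3 * b + (r / 240 - 3 * b)) + r % 240 = r := by omega
  rw [e] at h1
  exact h1

end Pool.Helper498.Hof
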