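import Pool.Agent.Helper498.Hof.All

/-! The lower bound `A(N) ≥ c * N ^ 0.999`. -/

namespace Pool.Helper498.Hof

theorem check_spec {r : ℕ} (h : check r = true) (hv : v r ≠ 0) :
    ∃ l, (r + 1) % (LA l) = 0 ∧
      v r * LK l ≤ 1073741824 * ∑ j ∈ Finset.range (LA l),
        v (((r + 1) / (LA l)) % (64800 / (LA l)) + j * (64800 / (LA l))) ∧
      ((rk r = 0 ∧ r = 17) ∨ ∃ j < LA l,
        v (((r + 1) / (LA l)) % (64800 / (LA l)) + j * (64800 / (LA l))) ≠ 0 ∧
        rk (((r + 1) / (LA l)) % (64800 / (LA l)) + j * (64800 / (LA l))) < rk r) := by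
  unfold check at h
  simp only [force_eq] at h
  have h0 : Nat.beq (getE tab r % 65536) 0 = false := by
    cases hb : Nat.beq (getE tab r % 65536) 0 with
    | false => rfl
    | true => exact absurd (Nat.eq_of_beq_eq_true hb) hv
  rw [h0] at h
  simp only [cond_false] at h
  refine ⟨(getE tab r >>> 16) % 16, ?_⟩
  generalize (getE tab r >>> 16) % 16 = l at h ⊢
  rw [Bool.and_eq_true, Bool.and_eq_true] at h
  obtain ⟨h1, h2, h3⟩ := h
  refine ⟨Nat.eq_of_beq_eq_true h1, ?_, ?_⟩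
  · rw [← sumv_eq]
    exact Nat.le_of_ble_eq_true h2
  · cases hb : Nat.beq (getE tab r >>> 20) 0 with
    | true =>
      rw [hb] at h3
      simp only [cond_true] at h3
      exact Or.inl ⟨Nat.eq_of_beq_eq_true hb, Nat.eq_of_beq_eq_true h3⟩
    | false =>
      rw [hb] at h3
      simp only [cond_false] at h3
      exact Or.inr (search_spec h3)

theorem H_mul {a b n : ℕ} (ha : H a) (hb : H b) (h : a * b = n + 1) : H n := by
  have : n = a * b - 1 := by omega
  rw [this]
  exact H.mul ha hb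

theorem H5 : H 5 := H_mul H.two H.three rfl
theorem H8 : H 8 := H_mul H.three H.three rfl
theorem H9 : H 9 := H_mul H.two H5 rfl
theorem H14 : H 14 := H_mul H.three H5 rfl
theorem H15 : H 15 := H_mul H.two H8 rfl
theorem H17 : H 17 := H_mul H.two H9 rfl
theorem H23 : H 23 := H_mul H.three H8 rfl
theorem H24 : H 24 := H_mul H5 H5 rfl
theorem H27 : H 27 := H_mul H.two H14 rfl
theorem H29 : H 29 := H_mul H.two H15 rfl
theorem H41 : H 41 := H_mul H.three H14 rfl
theorem H45 : H 45 := H_mul H.two H23 rfl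
theorem H50 : H 50 := H_mul H.three H17 rfl
theorem H80 : H 80 := H_mul H9 H9 rfl
theorem H81 : H 81 := H_mul H.two H41 rfl
theorem H135 : H 135 := H_mul H8 H17 rfl
theorem H144 : H 144 := H_mul H5 H29 rfl

theorem letter_H {l : ℕ} (hl : l < 14) : H (LA l) ∧ LA l ≤ 144 ∧ LA l ∣ 64800 := by
  interval_cases l
  · exact ⟨H.two, by decide, by decide⟩
  · exact ⟨H.three, by decide, by decide⟩
  · exact ⟨H5, by decide, by decide⟩
  · exact ⟨H8, by decide, by decide⟩
  · exact ⟨H9, by decide, by decide⟩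
  · exact ⟨H15, by decide, by decide⟩
  · exact ⟨H24, by decide, by decide⟩
  · exact ⟨H27, by decide, by decide⟩
  · exact ⟨H45, by decide, by decide⟩
  · exact ⟨H50, by decide, by decide⟩
  · exact ⟨H80, by decide, by decide⟩
  · exact ⟨H81, by decide, by decide⟩
  · exact ⟨H135, by decide, by decide⟩
  · exact ⟨H144, by decide, by decide⟩

/-- The check of the bound for one letter. -/
def powOK (D e f : ℕ) (l : ℕ) : Bool := Nat.ble ((LA l) ^ e * D ^ f) ((LK l) ^ f)

theorem powOK_le {D e f l : ℕ} (h : powOK D e f l = true) : (LA l) ^ e * D ^ f ≤ (LK l) ^ f :=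
  Nat.le_of_ble_eq_true h

theorem powOK_all : loop (powOK 1073741824 999 1000) 14 = true := by
  decide +kernel

theorem letter_pow {l : ℕ} (hl : l < 14) : (LA l) ^ 999 * 1073741824 ^ 1000 ≤ (LK l) ^ 1000 :=
  powOK_le (loop_spec powOK_all l hl)

theorem rpow_bound {a K D e f : ℕ} {s : ℝ} (hD : 0 < D) (hf : f ≠ 0) (hs : s = (e : ℝ) * (f : ℝ)⁻¹)
    (h : a ^ e * D ^ f ≤ K ^ f) : (a : ℝ) ^ s ≤ (K : ℝ) / D := by
  have hDpos : (0 : ℝ) < D := by exact_mod_cast hD
  have h1 : ((a : ℝ) ^ e) ≤ ((K : ℝ) / D) ^ f := by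
    rw [div_pow, le_div_iff₀ (by positivity)]
    exact_mod_cast h
  have h2 : (a : ℝ) ^ s = ((a : ℝ) ^ e) ^ ((f : ℝ)⁻¹) := by
    rw [← Real.rpow_natCast, ← Real.rpow_mul (by positivity), hs]
  rw [h2]
  calc ((a : ℝ) ^ e) ^ ((f : ℝ)⁻¹) ≤ (((K : ℝ) / D) ^ f) ^ ((f : ℝ)⁻¹) :=
        Real.rpow_le_rpow (by positivity) h1 (by positivity)
    _ = (K : ℝ) / D := Real.pow_rpow_inv_natCast (by positivity) hf

theorem LA_big {l : ℕ} (hl : ¬ l < 14) : LA l = 0 := by
  unfold LA
  rw [List.getD_eq_default]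
  simp only [List.length_cons, List.length_nil]
  omega

theorem letter_lt {r l : ℕ} (h : (r + 1) % (LA l) = 0) : l < 14 := by
  by_contra hl
  rw [LA_big hl, Nat.mod_zero] at h
  omega

theorem v_pos : v 17 ≠ 0 := by
  decide +kernel

theorem counting : ∃ c : ℝ, 0 < c ∧ ∃ N0 : ℕ, ∀ N ≥ N0,
    c * ((N : ℝ) + 1) ^ (0.999 : ℝ) ≤ ((S 64800 17 N).card : ℝ) := by
  have hroot := root_of_rank 64800 v rk 17 H17 (by norm_num) (by
    intro r hr hv
    obtain ⟨l, h1, _, h3⟩ := check_spec (check_all r hr) hv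
    rcases h3 with h3 | ⟨j, hj, h4, h5⟩
    · exact Or.inl h3
    · obtain ⟨hH, _, hdvd⟩ := letter_H (letter_lt h1)
      exact Or.inr ⟨LA l, j, hH, hdvd, h1, hj, h4, h5⟩)
  obtain ⟨c, hc, N0, hN0⟩ := main 64800 1073741824 144 v 0.999 (by norm_num) (by norm_num)
    (by norm_num) (by
      intro r hr hv
      obtain ⟨l, h1, h2, _⟩ := check_spec (check_all r hr) hv
      have hl := letter_lt h1
      obtain ⟨hH, hle, hdvd⟩ := letter_H hl
      exact ⟨LA l, LK l, hH, hle, hdvd, h1, by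
        exact rpow_bound (by norm_num : 0 < 1073741824) (by norm_num : 1000 ≠ 0)
          (by norm_num) (letter_pow hl), h2⟩) hroot
  have hvpos : (0 : ℝ) < v 17 := by
    have : 0 < v 17 := Nat.pos_of_ne_zero v_pos
    exact_mod_cast this
  exact ⟨c * v 17, by positivity, N0, fun N hN => hN0 N hN 17 (by norm_num) v_pos⟩

end Pool.Helper498.Hof
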