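import Pool.Agent.Helper498.Hof.Check

/-! Kernel check of the certificate, blocks 0 to 14. -/

namespace Pool.Helper498.Hof

theorem blk0 : blk 0 = true := by decide +kernel

theorem blk1 : blk 1 = true := by decide +kernel

theorem blk2 : blk 2 = true := by decide +kernel

theorem blk3 : blk 3 = true := by decide +kernel

theorem blk4 : blk 4 = true := by decide +kernel

theorem blk5 : blk 5 = true := by decide +kernel

theorem blk6 : blk 6 = true := by decide +kernel

theorem blk7 : blk 7 = true := by decide +kernel

theorem blk8 : blk 8 = true := by decide +kernel

theorem blk9 : blk 9 = true := by decide +kernel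

theorem blk10 : blk 10 = true := by decide +kernel

theorem blk11 : blk 11 = true := by decide +kernel

theorem blk12 : blk 12 = true := by decide +kernel

theorem blk13 : blk 13 = true := by decide +kernel

theorem blk14 : blk 14 = true := by decide +kernel

end Pool.Helper498.Hof
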